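import Pool.Agent.Lib_helper9.AAS.Up

/-!
# AAS (MP_cc4f83_nt): zeros of odd characters and class numbers of imaginary quadratic fields
-/

set_option autoImplicit false

namespace Pool.Agent.AAS

open Filter Topology
open Pool.Agent.LK (PQ)
open Pool.Agent.LEV (S2 IsNew co Lh HE)
open Pool.Agent.T12
open Pool.Agent.MED

/-- `L(1, χ)`, odd characters -/
def LO (ω : ℝ → ℝ) : Prop := ∃ (C : ℝ) (q₀ : ℕ), ∀ (q : ℕ) [NeZero q], q₀ ≤ q →
  ∀ (χ : DirichletCharacter ℂ q), PQ χ → χ.Odd →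
  Real.exp (-(C * ω (Real.log q))) ≤ ‖DirichletCharacter.LFunction χ 1‖

/-- class numbers of the imaginary quadratic fields -/
def CO (ω : ℝ → ℝ) : Prop := ∃ C d₀ : ℝ, ∀ (K : Type) [Field K] [NumberField K],
  Module.finrank ℚ K = 2 → NumberField.discr K < 0 → d₀ ≤ |(NumberField.discr K : ℝ)| →
  Real.sqrt |(NumberField.discr K : ℝ)| *
    Real.exp (-(C * ω (Real.log |(NumberField.discr K : ℝ)|))) ≤ NumberField.classNumber K

variable {ω : ℝ → ℝ}

/-- zeros and `L(1, χ)` -/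
theorem zo_iff_lo (h : Sc ω) : ZO ω ↔ LO ω := by
  obtain ⟨C₄, hC₄, c₄, hc₄, h4⟩ := p4
  constructor
  · rintro ⟨C, q₀, hz⟩
    obtain ⟨c', hc', h5⟩ := p5 c₄ hc₄
    obtain ⟨q₁, hq₁⟩ := med_big (max 8 (1 / c'))
    refine ⟨max C 1 + 1, q₀ + q₁, fun q _ hq χ hχ ho => ?_⟩
    obtain ⟨x, hxd⟩ : ∃ x : ℝ, x = Real.log q := ⟨_, rfl⟩
    have hx : 1 ≤ x := by rw [hxd]; exact c6_log hχ
    have hb := hq₁ q (by omega)
    rw [← hxd] at hb ⊢
    have hb8 : 8 ≤ x := (le_max_left _ _).trans hb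
    have hbc : 1 / c' ≤ x := (le_max_right _ _).trans hb
    by_cases hall : ∀ β : ℝ, RZ χ β → c₄ < (1 - β) * Real.log q
    · have h6 := h5 q χ hχ hall
      rw [← hxd] at h6
      refine le_trans ?_ h6
      have h7 := h.absorb 0 1 hx (le_refl x)
      have h8 : Real.exp (-((max C 1 + 1) * ω x)) ≤ Real.exp (-((0 + ((1 : ℕ) + 1)) * ω x)) := by
        apply h.anti _ hx
        have := le_max_right C 1
        push_cast
        linarith
      rw [zero_mul, neg_zero, Real.exp_zero] at h7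
      have h9 : 0 < x := by linarith
      rw [div_le_iff₀ hc'] at hbc
      rw [le_div_iff₀ h9]
      obtain ⟨e, he⟩ : ∃ e : ℝ, e = Real.exp (-((0 + ((1 : ℕ) + 1)) * ω x)) := ⟨_, rfl⟩
      rw [← he] at h7 h8
      have he0 : 0 < e := by rw [he]; exact Real.exp_pos _
      have h10 : Real.exp (-((max C 1 + 1) * ω x)) * x ≤ e * x :=
        mul_le_mul_of_nonneg_right h8 h9.le
      have h11 : (e * x) * 1 ≤ (e * x) * (x * c') :=
        mul_le_mul_of_nonneg_left hbc (by positivity)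
      have h12 : (e * x) * (x * c') = (x * x ^ 1 * e) * c' := by ring
      have h13 : (x * x ^ 1 * e) * c' ≤ 1 * c' := mul_le_mul_of_nonneg_right h7 hc'.le
      linarith
    · push Not at hall
      obtain ⟨β, hβ, hb1⟩ := hall
      refine le_trans ?_ (h4 q χ β hβ hb1).1
      have h6 := hz q (by omega) χ β hβ ho
      rw [← hxd] at h6
      have h7 := h.absorb (max C 1) 0 hx hb8
      have h8 := h.anti (le_max_left C 1) hx
      rw [pow_zero, mul_one] at h7
      push_cast at h7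
      rw [zero_add] at h7
      linarith
  · rintro ⟨C, q₀, hL⟩
    obtain ⟨q₁, hq₁⟩ := med_big (max C₄ (1 / c₄))
    refine ⟨max C 0 + 3, q₀ + q₁, fun q _ hq χ β hβ ho => ?_⟩
    obtain ⟨x, hxd⟩ : ∃ x : ℝ, x = Real.log q := ⟨_, rfl⟩
    have hx : 1 ≤ x := by rw [hxd]; exact c6_log hβ.pq
    have hx0 : 0 < x := by linarith
    have hb := hq₁ q (by omega)
    rw [← hxd] at hb ⊢
    have hbC : C₄ ≤ x := (le_max_left _ _).trans hb
    have hbc : 1 / c₄ ≤ x := (le_max_right _ _).trans hb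
    by_cases hb1 : (1 - β) * Real.log q ≤ c₄
    · have h6 := (h4 q χ β hβ hb1).2
      have h7 := hL q (by omega) χ hβ.pq ho
      rw [← hxd] at h6 h7
      have h8 := h.anti (le_max_left C 0) hx
      have h9 := h.absorb (max C 0) 2 hx hbC
      have h10 : ((2 : ℕ) : ℝ) + 1 = 3 := by norm_num
      rw [h10] at h9
      obtain ⟨e, he⟩ : ∃ e : ℝ, e = Real.exp (-((max C 0 + 3) * ω x)) := ⟨_, rfl⟩
      rw [← he] at h9 ⊢
      have h11 : 0 < C₄ * x ^ 2 := by positivity
      have h12 : C₄ * x ^ 2 * e ≤ C₄ * x ^ 2 * (1 - β) := by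
        have h13 : C₄ * (1 - β) * x ^ 2 = C₄ * x ^ 2 * (1 - β) := by ring
        linarith
      exact le_of_mul_le_mul_left h12 h11
    · push Not at hb1
      rw [← hxd] at hb1
      have h6 := h.absorb 0 1 hx (le_refl x)
      have h7 : Real.exp (-((max C 0 + 3) * ω x)) ≤ Real.exp (-((0 + ((1 : ℕ) + 1)) * ω x)) := by
        apply h.anti _ hx
        have := le_max_right C 0
        push_cast
        linarith
      rw [zero_mul, neg_zero, Real.exp_zero] at h6
      obtain ⟨e, he⟩ : ∃ e : ℝ, e = Real.exp (-((0 + ((1 : ℕ) + 1)) * ω x)) := ⟨_, rfl⟩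
      rw [← he] at h6 h7
      have he0 : 0 < e := by rw [he]; exact Real.exp_pos _
      rw [div_le_iff₀ hc₄] at hbc
      have h8 : e * x ≤ (1 - β) * x := by
        have h9 : (e * x) * 1 ≤ (e * x) * (x * c₄) :=
          mul_le_mul_of_nonneg_left hbc (by positivity)
        have h10 : (e * x) * (x * c₄) = (x * x ^ 1 * e) * c₄ := by ring
        have h11 : (x * x ^ 1 * e) * c₄ ≤ 1 * c₄ := mul_le_mul_of_nonneg_right h6 hc₄.le
        linarith
      exact h7.trans (le_of_mul_le_mul_right h8 hx0)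

/-- `L(1, χ)` and class numbers -/
theorem lo_iff_co (h : Sc ω) : LO ω ↔ CO ω := by
  constructor
  · rintro ⟨C, q₀, hL⟩
    obtain ⟨q₁, hq₁⟩ := med_big 4
    refine ⟨C + 1, ((q₀ + q₁ : ℕ) : ℝ), fun K _ _ hK hn hd => ?_⟩
    obtain ⟨q, _, χ, hχ, h1⟩ := CN.nl_char hK
    have ho := (CN.nl_odd h1).2 hn
    have h2 := CN.nl_abs h1
    rw [h2] at hd
    have hq : q₀ + q₁ ≤ q := by exact_mod_cast hd
    have hx : 1 ≤ Real.log q := c6_log hχ
    have h3 := hL q (by omega) χ hχ ho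
    have h4 := CN.nl_up hK hχ h1 (c := 1) (x := Real.exp (-(C * ω (Real.log q)))) (by
      rw [one_mul]
      exact h3)
    rw [(CN.res_quad K hK).1 hn, mul_one] at h4
    refine le_trans ?_ h4
    rw [h2]
    have h5 := h.absorb C 0 hx (hq₁ q (by omega))
    rw [pow_zero, mul_one] at h5
    push_cast at h5
    rw [zero_add] at h5
    have h6 := mul_le_mul_of_nonneg_left h5 (Real.sqrt_nonneg (q : ℝ))
    have h7 : Real.sqrt (q : ℝ) * (4 * Real.exp (-((C + 1) * ω (Real.log q)))) =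
      4 * (Real.sqrt (q : ℝ) * Real.exp (-((C + 1) * ω (Real.log q)))) := by ring
    rw [h7] at h6
    linarith
  · rintro ⟨C, d₀, hK⟩
    obtain ⟨q₁, hq₁⟩ := med_big 12
    refine ⟨C + 1, ⌈d₀⌉₊ + q₁, fun q _ hq χ hχ ho => ?_⟩
    obtain ⟨K, _, _, hK2, h1⟩ := CN.nl_field hχ
    have hn := (CN.nl_odd h1).1 ho
    have h2 := CN.nl_abs h1
    have hx : 1 ≤ Real.log q := c6_log hχ
    have hd : d₀ ≤ |(NumberField.discr K : ℝ)| := by
      rw [h2]
      refine (Nat.le_ceil d₀).trans ?_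
      exact_mod_cast (by omega : ⌈d₀⌉₊ ≤ q)
    have h3 := hK K hK2 hn hd
    have h4 := CN.nl_low hK2 hχ h1 (c := 1)
      (x := Real.exp (-(C * ω (Real.log |(NumberField.discr K : ℝ)|)))) (by
      rw [one_mul, (CN.res_quad K hK2).1 hn, mul_one]
      exact h3)
    refine le_trans ?_ h4
    rw [h2]
    have h5 := h.absorb C 0 hx (hq₁ q (by omega))
    rw [pow_zero, mul_one] at h5
    push_cast at h5
    rw [zero_add] at h5
    linarith


end Pool.Agent.AAS
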