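import Pool.Agent.Lib_helper9.AAS.Cls

/-!
# AAS (MP_cc4f83_nt): the law at almost all prime levels: only odd characters obstruct
-/

set_option autoImplicit false

namespace Pool.Agent.AAS

open Finset Filter Topology
open Pool.Agent.LK (PQ)
open Pool.Agent.LEV (S2 IsNew co Lh HE)
open Pool.Agent.T12
open Pool.Agent.MED

/-- no odd real character of conductor `q ≤ N^κ` with `χ(-N) = 1` has a real zero `β > 1 - w` -/
def NO (κ : ℝ) (N : ℕ) (w : ℝ) : Prop := ∀ (q : ℕ) [NeZero q] (χ : DirichletCharacter ℂ q)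
  (β : ℝ), RZ χ β → (q : ℝ) ≤ (N : ℝ) ^ κ → χ.Odd → χ (-(N : ZMod q)) = 1 → w ≤ 1 - β

/-- the law of the level `N` if only odd characters obstruct -/
def Gw (κ δ c : ℝ) (w : ℕ → ℝ) (N : ℕ) : Prop := ∀ h : N.Prime, NO κ N (w N) →
  1 / 2 + c ≤ @sT N ⟨h⟩ (w N * Real.log N ^ (1 / 2 - δ))

/-- at almost all levels only odd characters obstruct -/
theorem aas_gen : ∃ c κ : ℝ, 0 < c ∧ 0 < κ ∧ ∀ δ : ℝ, 0 < δ → ∀ w : ℕ → ℝ, (∀ N, 0 < w N) →
    Tendsto (fun N : ℕ => w N * Real.log N) atTop (𝓝 0) → AlmostAll (Gw κ δ c w) := by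
  obtain ⟨cU, hcU, hpu⟩ := pu
  obtain ⟨K, hK, hp3⟩ := p3
  obtain ⟨c, κ, hc, hκ, hκm, hκ2, h⟩ := aas_core (κm := min (cU / 2) (1 / K))
    (lt_min (by positivity) (by positivity))
  have hκU : κ ≤ cU / 2 := hκm.trans (min_le_left _ _)
  have hκK : κ ≤ 1 / K := hκm.trans (min_le_right _ _)
  refine ⟨c, κ, hc, hκ, fun δ hδ w hw0 hw => ?_⟩
  obtain ⟨N₁, h⟩ := h δ hδ
  intro η hη
  obtain ⟨δ₃, X₃, hδ₃, hp3⟩ := hp3 (η / 2) (by positivity)
  obtain ⟨X₆, h6⟩ := pix_big p6 (η := η / 2) (by positivity)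
  obtain ⟨N₂, h2⟩ : ∃ N₂ : ℕ, ∀ N : ℕ, N₂ ≤ N → w N * Real.log N < min 1 (δ₃ / 2) :=
    eventually_atTop.1 (hw.eventually_lt_const (lt_min one_pos (by positivity)))
  obtain ⟨m, hm⟩ : ∃ m, m = max (max N₁ N₂) 3 := ⟨_, rfl⟩
  have hm1 : N₁ ≤ m := by rw [hm]; exact (le_max_left _ _).trans (le_max_left _ _)
  have hm2 : N₂ ≤ m := by rw [hm]; exact (le_max_right _ _).trans (le_max_left _ _)
  have hm3 : 3 ≤ m := by rw [hm]; exact le_max_right _ _
  refine ⟨max X₃ (max X₆ (m * m)), fun X hX => ?_⟩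
  have b3 : X₃ ≤ X := (le_max_left _ _).trans hX
  have b6 : X₆ ≤ X := (le_max_left _ _).trans ((le_max_right _ _).trans hX)
  have bm : m * m ≤ X := (le_max_right _ _).trans ((le_max_right _ _).trans hX)
  have hXm : 9 ≤ X := by nlinarith
  have hX0 : (0 : ℝ) < X := by exact_mod_cast (by omega : 0 < X)
  have hlX0 : 0 < Real.log X := Real.log_pos (by exact_mod_cast (by omega : 1 < X))
  obtain ⟨H, hH⟩ : ∃ H, H = Real.log X / 2 := ⟨_, rfl⟩
  have hlX : Real.log X = 2 * H := by rw [hH]; ring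
  have hH0 : 0 < H := by linarith
  -- the data of a bad prime
  have key : ∀ N : ℕ, N ≤ X → Real.sqrt X < N → ¬ Gw κ δ c w N →
      ∃ (q : ℕ) (_ : NeZero q) (χ : DirichletCharacter ℂ q) (β : ℝ), RZ χ β ∧ q ≤ X ∧
        1 - cU / Real.log X < β ∧ χ (N : ZMod q) = 1 ∧ K * Real.log q ≤ Real.log X ∧
        (1 - β) * Real.log X ≤ δ₃ := by
    intro N hNX hN hb
    unfold Gw at hb
    push Not at hb
    obtain ⟨hp, hno, hb⟩ := hb
    haveI : Fact N.Prime := ⟨hp⟩
    have hmN : m ≤ N := by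
      by_contra hcon
      push Not at hcon
      have : N * N < m * m := Nat.mul_self_lt_mul_self hcon
      have h7 : (N : ℝ) * N < X := by exact_mod_cast this.trans_le bm
      have h8 : (N : ℝ) < Real.sqrt X := by
        rw [Real.lt_sqrt (by positivity), sq]; exact h7
      linarith
    have hNpos : (0 : ℝ) < N := by exact_mod_cast (by omega : 0 < N)
    have hN2 : H ≤ Real.log N := by
      have : Real.log (Real.sqrt X) ≤ Real.log N :=
        Real.log_le_log (Real.sqrt_pos.2 hX0) hN.le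
      rw [Real.log_sqrt hX0.le] at this
      rw [hH]; exact this
    have hNX' : Real.log N ≤ Real.log X := Real.log_le_log hNpos (by exact_mod_cast hNX)
    have hx0 : 0 < Real.log N := by linarith
    have h2 := h2 N (by omega)
    have h21 : w N * Real.log N ≤ 1 := h2.le.trans (min_le_left _ _)
    have h22 : w N * Real.log N ≤ δ₃ / 2 := h2.le.trans (min_le_right _ _)
    have hw1 : w N ≤ 1 / Real.log N := by
      rw [le_div_iff₀ hx0]; exact h21
    obtain ⟨q, hq, χ, β, hxz, h1, hwβ⟩ := h N (by omega) (w N) (hw0 N) hw1 (not_le.2 hb)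
    have hlt := q_lt_of_XZ hxz (by linarith) (by omega)
    have hqpos : (0 : ℝ) < q := by exact_mod_cast Nat.pos_of_ne_zero (NeZero.ne q)
    refine ⟨q, hq, χ, β, hxz.rz, by omega, ?_, ?_, ?_, ?_⟩
    · have h9 : κ / Real.log N ≤ cU / Real.log X := by
        rw [div_le_div_iff₀ hx0 (by linarith), hlX]
        have h10 : κ * (2 * H) ≤ cU / 2 * (2 * H) :=
          mul_le_mul_of_nonneg_right hκU (by linarith)
        have h11 : cU * H ≤ cU * Real.log N := mul_le_mul_of_nonneg_left hN2 hcU.le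
        linarith
      have := hxz.hβ
      linarith
    · refine chi_even h1 fun ho => ?_
      have h10 := hno q χ β hxz.rz hxz.hq ho h1
      linarith
    · have h11 : Real.log q ≤ κ * Real.log N := by
        have := Real.log_le_log hqpos hxz.hq
        rwa [Real.log_rpow hNpos] at this
      calc K * Real.log q ≤ K * (κ * Real.log N) :=
            mul_le_mul_of_nonneg_left h11 (by linarith)
        _ ≤ K * (1 / K * Real.log N) :=
            mul_le_mul_of_nonneg_left (mul_le_mul_of_nonneg_right hκK hx0.le) (by linarith)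
        _ = Real.log N := by field_simp
        _ ≤ Real.log X := hNX'
    · have hβ0 : 0 < 1 - β := by have := hxz.rz.lt; linarith
      have h12 : (1 - β) * Real.log N ≤ w N * Real.log N :=
        mul_le_mul_of_nonneg_right hwβ.le hx0.le
      have h13 : (1 - β) * H ≤ (1 - β) * Real.log N := mul_le_mul_of_nonneg_left hN2 hβ0.le
      rw [hlX]
      have h14 : (1 - β) * (2 * H) = 2 * ((1 - β) * H) := by ring
      rw [h14]
      linarith
  have hs6 := h6 X b6
  by_cases hex : ∃ N : ℕ, N ≤ X ∧ Real.sqrt X < N ∧ ¬ Gw κ δ c w N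
  · obtain ⟨N', hN'X, hN', hb'⟩ := hex
    obtain ⟨q, hq, χ, β, hRZ, hqX, hβ, -, hKq, hδq⟩ := key N' hN'X hN' hb'
    have h20 := hp3 q χ β hRZ X b3 hKq hδq
    have h21 : cp (fun N => ¬ Gw κ δ c w N) X ≤
        Real.sqrt X + cp (fun n => χ (n : ZMod q) ≠ -1) X := by
      apply cp_le_add (Real.sqrt_nonneg _)
      intro n hnp hnX hn hb
      obtain ⟨q', hq', χ', β', hRZ', hqX', hβ', h1', -, -⟩ := key n hnX hn hb
      obtain ⟨-, heq, -⟩ := hpu X (by omega) q χ β q' χ' β' hqX hqX' hRZ hRZ' hβ hβ'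
      rw [heq n, h1']
      norm_num
    linarith
  · push Not at hex
    have h21 : cp (fun N => ¬ Gw κ δ c w N) X ≤ Real.sqrt X + cp (fun _ => False) X := by
      apply cp_le_add (Real.sqrt_nonneg _)
      intro n hnp hnX hn hb
      exact hb (hex n hnX hn)
    have h22 : cp (fun _ => False) X = 0 := by
      unfold cp; simp
    have := pix_nonneg X
    nlinarith

end Pool.Agent.AAS
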