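import Pool.Agent.Lib_helper9.AAS.KS

/-!
# AAS (MP_cc4f83_nt): the Keating-Snaith law, Siegel zeros and class numbers
-/

set_option autoImplicit false

namespace Pool.Agent.AAS

open MeasureTheory ProbabilityTheory
open Finset Filter Topology
open Pool.Agent.LK (PQ)
open Pool.Agent.LEV (S2 IsNew co Lh HE)
open Pool.Agent.T12
open Pool.Agent.MED

/-- zeros and `L(1, χ)` with the same exponent `B ≥ 1` -/
theorem zb_lb {P : ∀ {q : ℕ}, DirichletCharacter ℂ q → Prop} {B : ℝ} (hB1 : 1 ≤ B)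
    (h : ZB P B) : LB P B := by
  obtain ⟨q₀, hB⟩ := h
  obtain ⟨c₀, hc₀, h0⟩ := p0
  obtain ⟨C, hC, c, hc, h4⟩ := p4
  obtain ⟨c', hc', h5⟩ := p5 c hc
  obtain ⟨m, hm⟩ : ∃ m : ℝ, m = min c' (min (1 / 8) (c₀ / (8 * (q₀ + 1)))) := ⟨_, rfl⟩
  have hm0 : 0 < m := by
    rw [hm]
    exact lt_min hc' (lt_min (by norm_num) (by positivity))
  have m1 : m ≤ c' := by rw [hm]; exact min_le_left _ _
  have m2 : m ≤ 1 / 8 := by rw [hm]; exact (min_le_right _ _).trans (min_le_left _ _)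
  have m3 : m ≤ c₀ / (8 * (q₀ + 1)) := by
    rw [hm]; exact (min_le_right _ _).trans (min_le_right _ _)
  refine ⟨m, hm0, fun q _ χ hχ hP => ?_⟩
  have hl := c6_log hχ
  have hl0 : (0 : ℝ) < Real.log q := by linarith
  have e1 : Real.log q ^ (-B) ≤ 1 := by
    have := Real.rpow_le_rpow_of_exponent_le hl (show -B ≤ 0 by linarith)
    rwa [Real.rpow_zero] at this
  have e2 : Real.log q ^ (-B) ≤ (Real.log q)⁻¹ := by
    have := Real.rpow_le_rpow_of_exponent_le hl (show -B ≤ -1 by linarith)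
    rwa [Real.rpow_neg_one] at this
  have e0 : 0 < Real.log q ^ (-B) := Real.rpow_pos_of_pos hl0 _
  by_cases hall : ∀ β : ℝ, RZ χ β → c < (1 - β) * Real.log q
  · refine le_trans ?_ (h5 q χ hχ hall)
    rw [div_eq_mul_inv]
    exact mul_le_mul m1 e2 e0.le hc'.le
  · push Not at hall
    obtain ⟨β, hz, hβ⟩ := hall
    refine le_trans ?_ (h4 q χ β hz hβ).1
    by_cases hq : q₀ ≤ q
    · have h1 := hB q hq χ β hz hP
      calc m * Real.log q ^ (-B) ≤ 1 / 8 * Real.log q ^ (-B) :=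
            mul_le_mul_of_nonneg_right m2 e0.le
        _ ≤ (1 - β) / 8 := by linarith
    · have h1 := h0 q χ β hz
      have hqr : (q : ℝ) ≤ q₀ + 1 := by
        have : q ≤ q₀ + 1 := by omega
        exact_mod_cast this
      have hq0 : (0 : ℝ) < q := by exact_mod_cast Nat.pos_of_ne_zero (NeZero.ne q)
      calc m * Real.log q ^ (-B) ≤ c₀ / (8 * (q₀ + 1)) * 1 :=
            mul_le_mul m3 e1 e0.le (by positivity)
        _ = c₀ / (q₀ + 1) / 8 := by field_simp
        _ ≤ c₀ / q / 8 := by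
            apply div_le_div_of_nonneg_right _ (by norm_num)
            exact div_le_div_of_nonneg_left hc₀.le hq0 hqr
        _ ≤ (1 - β) / 8 := by linarith

/-- more than half of the law at all levels, for one `V` -/
theorem ks_all {V c : ℝ} (hc : 0 < c) {N₀ : ℕ} (h : ∀ (N : ℕ) [Fact N.Prime], N₀ ≤ N →
    (1 / 2 + c) * gV V ≤ kV V N) : ∀ δ : ℝ, 0 < δ → ZB Any (1 + δ) := by
  intro δ hδ
  by_contra hz
  have hg := gV_pos V
  obtain ⟨N, hp, hN, h1⟩ := ks_some hδ hz V (c * gV V / 2) (by positivity) N₀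
  haveI : Fact N.Prime := ⟨hp⟩
  have h2 := h N hN
  rw [abs_le] at h1
  have h3 : 0 < c * gV V := by positivity
  linarith [h1.2]

/-- more than half of the law at a positive proportion of the levels, for one `V` -/
theorem ks_pos {V c : ℝ} (hc : 0 < c) {η : ℝ} (hη : 0 < η) {X₀ : ℕ}
    (h : ∀ X : ℕ, X₀ ≤ X → η * pix X ≤
      cp (fun N => ∀ h : N.Prime, (1 / 2 + c) * gV V ≤ @kV V N ⟨h⟩) X) :
    ∀ δ : ℝ, 0 < δ → ZB (fun χ => χ.Odd) (1 + δ) := by
  intro δ hδ
  by_contra hz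
  have hg := gV_pos V
  obtain ⟨X, hX, h1⟩ := ks_upper hδ hz V (c * gV V / 2) (by positivity) (η / 2) (by positivity)
    (X₀ + 2)
  have h2 := h X (by omega)
  have h3 := pix_pos (show 2 ≤ X by omega)
  have h4 : cp (fun N => ∀ h : N.Prime, (1 / 2 + c) * gV V ≤ @kV V N ⟨h⟩) X ≤
      0 + cp (fun N => ¬ HK V (c * gV V / 2) N) X := by
    apply cp_le_add (le_refl _)
    intro N hp _ _ hg1 hh
    have k1 := hg1 hp
    have k2 := hh hp
    rw [abs_le] at k2
    have h3 : 0 < c * gV V := by positivity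
    linarith [k2.2]
  have h5 : 0 < η / 2 * pix X := by positivity
  linarith

/-- no Siegel zeros: more than half of the law at all levels, for all `V` -/
theorem ks_free_all {k : ℝ} (hk : 0 < k) (h : ∀ (q : ℕ) [NeZero q] (χ : DirichletCharacter ℂ q)
    (β : ℝ), RZ χ β → k / Real.log q ≤ 1 - β) : ∃ c : ℝ, 0 < c ∧ ∀ V ε : ℝ, 0 < ε →
    ∃ N₀ : ℕ, ∀ (N : ℕ) [Fact N.Prime], N₀ ≤ N → (1 / 2 + c) * gV V - ε ≤ kV V N := by
  obtain ⟨κ, hκ⟩ : ∃ κ : ℝ, κ = min (1 / 2) k := ⟨_, rfl⟩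
  have hκ0 : 0 < κ := by rw [hκ]; exact lt_min (by norm_num) hk
  have k1 : κ ≤ 1 / 2 := by rw [hκ]; exact min_le_left _ _
  have k2 : κ ≤ k := by rw [hκ]; exact min_le_right _ _
  obtain ⟨c, hc, hf⟩ := ks_free κ hκ0
  refine ⟨c, hc, fun V ε hε => ?_⟩
  obtain ⟨N₀, hf⟩ := hf V ε hε
  refine ⟨N₀ + 3, fun N _ hN => ?_⟩
  refine hf N (by omega) fun q _ χ β hx => ?_
  have hlog := med_log (show 3 ≤ N by omega)
  have hl0 : 0 < Real.log N := by linarith
  have hNpos : (0 : ℝ) < N := by exact_mod_cast (by omega : 0 < N)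
  have hqpos : (0 : ℝ) < q := by exact_mod_cast Nat.pos_of_ne_zero (NeZero.ne q)
  have hlq := c6_log hx.rz.pq
  have hlq0 : 0 < Real.log q := by linarith
  have h1 := h q χ β hx.rz
  have h2 : Real.log q ≤ κ * Real.log N := by
    have := Real.log_le_log hqpos hx.hq
    rwa [Real.log_rpow hNpos] at this
  have h3 := hx.hβ
  rw [div_le_iff₀ hlq0] at h1
  have h4 : 1 - β < κ / Real.log N := by linarith
  rw [lt_div_iff₀ hl0] at h4
  have hβ0 : 0 < 1 - β := by have := hx.rz.lt; linarith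
  have h5 : (1 - β) * Real.log q ≤ (1 - β) * (κ * Real.log N) :=
    mul_le_mul_of_nonneg_left h2 hβ0.le
  have h6 : (1 - β) * (κ * Real.log N) = κ * ((1 - β) * Real.log N) := by ring
  have h7 : κ * ((1 - β) * Real.log N) ≤ κ * κ := mul_le_mul_of_nonneg_left h4.le hκ0.le
  have h8 : κ * κ ≤ κ * (1 / 2) := mul_le_mul_of_nonneg_left k1 hκ0.le
  linarith

end Pool.Agent.AAS
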