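import Pool.Agent.Lib_helper9.AAS.Gen
import Pool.Agent.Lib_helper82.T12.MainK

/-!
# AAS (MP_cc4f83_nt): the Keating-Snaith law and real zeros: the exponent `1`
-/

set_option autoImplicit false

namespace Pool.Agent.AAS

open MeasureTheory ProbabilityTheory
open Finset Filter Topology
open Pool.Agent.LK (PQ)
open Pool.Agent.LEV (S2 IsNew co Lh HE)
open Pool.Agent.T12
open Pool.Agent.MED

/-- the proportion of the Keating-Snaith law -/
noncomputable def kV (V : ℝ) (N : ℕ) [Fact N.Prime] : ℝ :=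
  sh N (fun f => Real.log N ^ (-(1 / 2) : ℝ) *
    Real.exp (V * Real.sqrt (Real.log (Real.log N))) ≤ (Lh f).re)

/-- `P(Z ≥ V)` -/
noncomputable def gV (V : ℝ) : ℝ := (gaussianReal 0 1).real (Set.Ici V)

theorem gV_pos (V : ℝ) : 0 < gV V := by
  unfold gV
  rw [measureReal_def, ENNReal.toReal_pos_iff]
  refine ⟨?_, measure_lt_top _ _⟩
  rw [pos_iff_ne_zero]
  intro h
  have h1 := gaussianReal_absolutelyContinuous' 0 (v := 1) one_ne_zero h
  rw [Real.volume_Ici] at h1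
  exact ENNReal.top_ne_zero h1

/-- half of the law at the level `N` -/
def HK (V ε : ℝ) (N : ℕ) : Prop := ∀ h : N.Prime, |@kV V N ⟨h⟩ - 1 / 2 * gV V| ≤ ε

/-- strong zeros of odd characters: half of the law, on a set of relative upper density `1` -/
theorem ks_upper {δ : ℝ} (hδ : 0 < δ) (hz : ¬ ZB (fun χ => χ.Odd) (1 + δ)) :
    ∀ V ε : ℝ, 0 < ε → UpperOne (HK V ε) := by
  intro V ε hε η hη X₀
  obtain ⟨κ, hκ, llo⟩ := ks_plus_law ε hε
  obtain ⟨N₀, llo⟩ := llo V (δ / 2) (by positivity)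
  obtain ⟨K, hK, hp3⟩ := p3
  obtain ⟨δ₃, X₃, hδ₃, hp3⟩ := hp3 (η / 2) (by positivity)
  obtain ⟨X₆, h6⟩ := pix_big p6 (η := η / 2) (by positivity)
  obtain ⟨K', hK'⟩ : ∃ K', K' = max K (1 / κ) := ⟨_, rfl⟩
  have hKK : K ≤ K' := by rw [hK']; exact le_max_left _ _
  have hKκ : 1 / κ ≤ K' := by rw [hK']; exact le_max_right _ _
  have hK1 : 1 ≤ K' := hK.trans hKK
  obtain ⟨q₁, h1⟩ := evN ((size (B := 1 + δ) (B' := 1 + δ / 2) (D := 3 * K')
    (μ := min δ₃ (κ / 2)) (by linarith) (by linarith) (by linarith) (by linarith)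
    (lt_min hδ₃ (by positivity))).and (eventually_ge_atTop (1 : ℝ)))
  unfold ZB at hz
  push Not at hz
  obtain ⟨q, hqn, hq, χ, β, hRZ, hodd, hw⟩ := hz (max (max q₁ (N₀ * N₀ + 9)) (max X₀ (max X₃ X₆)))
  have c1 : q₁ ≤ q := (le_max_left _ _).trans ((le_max_left _ _).trans hq)
  have c2 : N₀ * N₀ + 9 ≤ q := (le_max_right _ _).trans ((le_max_left _ _).trans hq)
  have c3 : X₀ ≤ q := (le_max_left _ _).trans ((le_max_right _ _).trans hq)
  have c4 : X₃ ≤ q := (le_max_left _ _).trans ((le_max_right _ _).trans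
    ((le_max_right _ _).trans hq))
  have c5 : X₆ ≤ q := (le_max_right _ _).trans ((le_max_right _ _).trans
    ((le_max_right _ _).trans hq))
  obtain ⟨h2, h3⟩ := h1 q c1
  obtain ⟨L, hL⟩ : ∃ L, L = Real.log q := ⟨_, rfl⟩
  rw [← hL] at h2 h3 hw
  have hL0 : 0 < L := by linarith
  have hq9 : 9 ≤ q := by omega
  have hq9' : (9 : ℝ) ≤ q := by exact_mod_cast hq9
  have hq0 : (0 : ℝ) < q := by linarith
  have hw0 : 0 ≤ 1 - β := by linarith [hRZ.lt]
  obtain ⟨X, hX⟩ : ∃ X : ℕ, X = ⌈(q : ℝ) ^ (2 * K')⌉₊ := ⟨_, rfl⟩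
  have hX1 : (q : ℝ) ^ (2 * K') ≤ X := by rw [hX]; exact Nat.le_ceil _
  have hX2 : (X : ℝ) < (q : ℝ) ^ (2 * K') + 1 := by
    rw [hX]; exact Nat.ceil_lt_add_one (by positivity)
  have hqX' : (q : ℝ) ≤ (q : ℝ) ^ (2 * K') := by
    calc (q : ℝ) = (q : ℝ) ^ (1 : ℝ) := (Real.rpow_one _).symm
      _ ≤ _ := Real.rpow_le_rpow_of_exponent_le (by linarith) (by linarith)
  have hqX : q ≤ X := by exact_mod_cast hqX'.trans hX1
  have hX0 : (0 : ℝ) < X := by linarith
  have hlX1 : 2 * K' * L ≤ Real.log X := by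
    have := Real.log_le_log (by positivity) hX1
    rwa [Real.log_rpow hq0, ← hL] at this
  have hlX2 : Real.log X ≤ 3 * K' * L := by
    have e1 : (q : ℝ) ^ (3 * K') = (q : ℝ) ^ K' * (q : ℝ) ^ (2 * K') := by
      rw [← Real.rpow_add hq0]; congr 1; ring
    have e2 : (2 : ℝ) ≤ (q : ℝ) ^ K' := by
      calc (2 : ℝ) ≤ (q : ℝ) ^ (1 : ℝ) := by rw [Real.rpow_one]; linarith
        _ ≤ _ := Real.rpow_le_rpow_of_exponent_le (by linarith) hK1
    have e3 : (X : ℝ) ≤ (q : ℝ) ^ (3 * K') := by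
      rw [e1]
      nlinarith
    have := Real.log_le_log hX0 e3
    rwa [Real.log_rpow hq0, ← hL] at this
  have hlX3 : 1 ≤ Real.log X := by nlinarith
  obtain ⟨h4, -⟩ := h2 (1 - β) hw0 hw (Real.log X) hlX3 hlX2
  refine ⟨X, by omega, ?_⟩
  have h20 := hp3 q χ β hRZ X (by omega)
    (by rw [← hL]; nlinarith) (h4.trans (min_le_left _ _))
  have hs6 := h6 X (by omega)
  have h21 : cp (fun N => ¬ HK V ε N) X ≤
      Real.sqrt X + cp (fun n => χ (n : ZMod q) ≠ -1) X := by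
    apply cp_le_add (Real.sqrt_nonneg _)
    intro N hp hNX hN hb hcon
    apply hb
    intro hp
    haveI : Fact N.Prime := ⟨hp⟩
    have hN0 : N₀ ≤ N := by
      by_contra hcc
      push Not at hcc
      have : N * N < N₀ * N₀ := Nat.mul_self_lt_mul_self hcc
      have h7 : (N : ℝ) * N < X := by exact_mod_cast (by omega : N * N < X)
      have h8 : (N : ℝ) < Real.sqrt X := by
        rw [Real.lt_sqrt (by positivity), sq]; exact h7
      linarith
    have hNpos : (0 : ℝ) < N := by exact_mod_cast hp.pos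
    have hqs : (q : ℝ) ^ K' ≤ Real.sqrt X := by
      rw [Real.le_sqrt (by positivity) hX0.le, ← Real.rpow_natCast, ← Real.rpow_mul hq0.le]
      have : K' * ((2 : ℕ) : ℝ) = 2 * K' := by push_cast; ring
      rw [this]; exact hX1
    have hqN : (q : ℝ) ≤ (N : ℝ) ^ κ := by
      have e1 : ((q : ℝ) ^ (1 / κ)) ^ κ = q := by
        rw [← Real.rpow_mul hq0.le]
        have : 1 / κ * κ = 1 := by field_simp
        rw [this, Real.rpow_one]
      calc (q : ℝ) = ((q : ℝ) ^ (1 / κ)) ^ κ := e1.symm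
        _ ≤ ((q : ℝ) ^ K') ^ κ := Real.rpow_le_rpow (by positivity)
            (Real.rpow_le_rpow_of_exponent_le (by linarith) hKκ) hκ.le
        _ ≤ (N : ℝ) ^ κ := Real.rpow_le_rpow (by positivity) (hqs.trans hN.le) hκ.le
    have hlN1 : K' * L ≤ Real.log N := by
      have := Real.log_le_log (by positivity) (hqs.trans hN.le)
      rwa [Real.log_rpow hq0, ← hL] at this
    have hlN : 1 ≤ Real.log N := by nlinarith
    have hlN2 : Real.log N ≤ 3 * K' * L :=
      (Real.log_le_log hNpos (by exact_mod_cast hNX)).trans hlX2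
    obtain ⟨h5, h6⟩ := h2 (1 - β) hw0 hw (Real.log N) hlN hlN2
    have hxz : XZ κ N χ β := by
      refine ⟨hRZ, hqN, ?_⟩
      have : 1 - β < κ / Real.log N := by
        rw [lt_div_iff₀ (by linarith)]
        have := h5.trans (min_le_right _ _)
        linarith
      linarith
    have e : -(1 + δ / 2) = -1 - δ / 2 := by ring
    rw [e] at h6
    exact llo N hN0 q χ β hxz (chi_odd hcon hodd) h6
  linarith

/-- strong zeros of real characters: half of the law, at arbitrarily large levels -/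
theorem ks_some {δ : ℝ} (hδ : 0 < δ) (hz : ¬ ZB Any (1 + δ)) :
    ∀ V ε : ℝ, 0 < ε → ∀ N₁ : ℕ, ∃ (N : ℕ) (h : N.Prime), N₁ ≤ N ∧
      |@kV V N ⟨h⟩ - 1 / 2 * gV V| ≤ ε := by
  intro V ε hε N₁
  obtain ⟨κ, hκ, llo⟩ := ks_plus_law ε hε
  obtain ⟨N₀, llo⟩ := llo V (δ / 2) (by positivity)
  obtain ⟨K₀, hK₀, hp1⟩ := p1
  obtain ⟨K', hK'⟩ : ∃ K', K' = max K₀ (1 / κ) := ⟨_, rfl⟩
  have hKK : K₀ ≤ K' := by rw [hK']; exact le_max_left _ _
  have hKκ : 1 / κ ≤ K' := by rw [hK']; exact le_max_right _ _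
  have hK1 : 1 ≤ K' := hK₀.trans hKK
  obtain ⟨c, q₀, hc, hp1⟩ := hp1 K' hKK
  obtain ⟨q₁, h1⟩ := evN ((size (B := 1 + δ) (B' := 1 + δ / 2) (D := K' + 2)
    (μ := min c (κ / 2)) (by linarith) (by linarith) (by linarith) (by linarith)
    (lt_min hc (by positivity))).and (eventually_ge_atTop (1 : ℝ)))
  unfold ZB at hz
  push Not at hz
  obtain ⟨q, hqn, hq, χ, β, hRZ, -, hw⟩ := hz (max (max q₁ q₀) (max 9 (max N₀ N₁)))
  have c1 : q₁ ≤ q := (le_max_left _ _).trans ((le_max_left _ _).trans hq)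
  have c2 : q₀ ≤ q := (le_max_right _ _).trans ((le_max_left _ _).trans hq)
  have c3 : 9 ≤ q := (le_max_left _ _).trans ((le_max_right _ _).trans hq)
  have c4 : N₀ ≤ q := (le_max_left _ _).trans ((le_max_right _ _).trans
    ((le_max_right _ _).trans hq))
  have c5 : N₁ ≤ q := (le_max_right _ _).trans ((le_max_right _ _).trans
    ((le_max_right _ _).trans hq))
  obtain ⟨h2, h3⟩ := h1 q c1
  obtain ⟨L, hL⟩ : ∃ L, L = Real.log q := ⟨_, rfl⟩
  rw [← hL] at h2 h3 hw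
  have hL0 : 0 < L := by linarith
  have hq9' : (9 : ℝ) ≤ q := by exact_mod_cast c3
  have hq0 : (0 : ℝ) < q := by linarith
  have hw0 : 0 ≤ 1 - β := by linarith [hRZ.lt]
  obtain ⟨h4, -⟩ := h2 (1 - β) hw0 hw L h3 (by nlinarith)
  have hs : χ (-1) = 1 ∨ χ (-1) = -1 := by
    rcases DirichletCharacter.even_or_odd χ with h | h
    · exact Or.inl h
    · exact Or.inr h
  obtain ⟨N, hp, hN1, hN2, hs2⟩ := hp1 q χ β c2 hRZ
    (by rw [← hL]; exact h4.trans (min_le_left _ _)) (χ (-1)) hs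
  haveI : Fact N.Prime := ⟨hp⟩
  have hqN' : (q : ℝ) ≤ N := by
    calc (q : ℝ) = (q : ℝ) ^ (1 : ℝ) := (Real.rpow_one _).symm
      _ ≤ (q : ℝ) ^ K' := Real.rpow_le_rpow_of_exponent_le (by linarith) hK1
      _ ≤ N := hN1
  have hqN'' : q ≤ N := by exact_mod_cast hqN'
  have hNpos : (0 : ℝ) < N := by linarith
  have hqN : (q : ℝ) ≤ (N : ℝ) ^ κ := by
    have e1 : ((q : ℝ) ^ (1 / κ)) ^ κ = q := by
      rw [← Real.rpow_mul hq0.le]
      have : 1 / κ * κ = 1 := by field_simp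
      rw [this, Real.rpow_one]
    calc (q : ℝ) = ((q : ℝ) ^ (1 / κ)) ^ κ := e1.symm
      _ ≤ ((q : ℝ) ^ K') ^ κ := Real.rpow_le_rpow (by positivity)
          (Real.rpow_le_rpow_of_exponent_le (by linarith) hKκ) hκ.le
      _ ≤ (N : ℝ) ^ κ := Real.rpow_le_rpow (by positivity) hN1 hκ.le
  have hlN : 1 ≤ Real.log N := by
    have := Real.log_le_log hq0 hqN'
    rw [← hL] at this
    linarith
  have hlN2 : Real.log N ≤ (K' + 2) * L := by
    have := Real.log_le_log hNpos hN2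
    rwa [Real.log_rpow hq0, ← hL] at this
  obtain ⟨h5, h6⟩ := h2 (1 - β) hw0 hw (Real.log N) hlN hlN2
  have hxz : XZ κ N χ β := by
    refine ⟨hRZ, hqN, ?_⟩
    have : 1 - β < κ / Real.log N := by
      rw [lt_div_iff₀ (by linarith)]
      have := h5.trans (min_le_right _ _)
      linarith
    linarith
  have hχ : χ (-(N : ZMod q)) = 1 := by
    have e1 : χ (-(N : ZMod q)) = χ (-1) * χ (N : ZMod q) := by
      rw [← map_mul]; congr 1; ring
    rw [e1, hs2]
    rcases hs with h | h <;> rw [h] <;> norm_num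
  have e : -(1 + δ / 2) = -1 - δ / 2 := by ring
  rw [e] at h6
  exact ⟨N, hp, by omega, llo N (by omega) q χ β hxz hχ h6⟩

end Pool.Agent.AAS
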