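import Pool.Agent.Lib_helper9.MED.Scale

/-!
# AAS (MP_cc4f83_nt): almost all prime levels, at every scale: from zeros to central values
-/

set_option autoImplicit false

namespace Pool.Agent.AAS

open Finset Filter Topology
open Pool.Agent.LK (PQ)
open Pool.Agent.LEV (S2 IsNew co Lh HE)
open Pool.Agent.T12
open Pool.Agent.MED

/-- real zeros of the odd characters -/
def ZO (ω : ℝ → ℝ) : Prop := ∃ (C : ℝ) (q₀ : ℕ), ∀ (q : ℕ) [NeZero q], q₀ ≤ q →
  ∀ (χ : DirichletCharacter ℂ q) (β : ℝ), RZ χ β → χ.Odd →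
  Real.exp (-(C * ω (Real.log q))) ≤ 1 - β

/-- more than half of the central values at the level `N` exceed `exp(-C ω(log N))` -/
def Gd (ω : ℝ → ℝ) (c C : ℝ) (N : ℕ) : Prop := ∀ h : N.Prime,
  1 / 2 + c ≤ @sT N ⟨h⟩ (Real.exp (-(C * ω (Real.log N))))

/-- the data of a level with few large central values -/
theorem aas_core {κm : ℝ} (hκm : 0 < κm) : ∃ c κ : ℝ, 0 < c ∧ 0 < κ ∧ κ ≤ κm ∧ κ ≤ 1 / 2 ∧
    ∀ δ : ℝ, 0 < δ → ∃ N₀ : ℕ, ∀ (N : ℕ) [Fact N.Prime], N₀ ≤ N → ∀ w : ℝ, 0 < w →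
    w ≤ 1 / Real.log N → ¬ (1 / 2 + c ≤ sT N (w * Real.log N ^ (1 / 2 - δ))) →
    ∃ (q : ℕ) (_ : NeZero q) (χ : DirichletCharacter ℂ q) (β : ℝ),
      XZ κ N χ β ∧ χ (-(N : ZMod q)) = 1 ∧ 1 - β < w := by
  obtain ⟨κ₁, hκ₁, h1⟩ := rA_laws.lm (1 / 20) (by norm_num)
  obtain ⟨κ₂, hκ₂, h2⟩ := med_three (1 / 20) (by norm_num)
  obtain ⟨κ, hκ⟩ : ∃ κ, κ = min (min κ₁ κ₂) (min κm (1 / 2)) := ⟨_, rfl⟩
  have hκ0 : 0 < κ := by
    rw [hκ]; exact lt_min (lt_min hκ₁ hκ₂) (lt_min hκm (by norm_num))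
  have a1 : κ ≤ κ₁ := by rw [hκ]; exact (min_le_left _ _).trans (min_le_left _ _)
  have a2 : κ ≤ κ₂ := by rw [hκ]; exact (min_le_left _ _).trans (min_le_right _ _)
  have a3 : κ ≤ κm := by rw [hκ]; exact (min_le_right _ _).trans (min_le_left _ _)
  have a4 : κ ≤ 1 / 2 := by rw [hκ]; exact (min_le_right _ _).trans (min_le_right _ _)
  obtain ⟨c₀, hc₀, h0⟩ := rA_laws.l0 κ hκ0
  refine ⟨min c₀ (1 / 20), κ, lt_min hc₀ (by norm_num), hκ0, a3, a4, fun δ hδ => ?_⟩
  obtain ⟨N₀, h0⟩ := h0 (1 / 2 + δ) (by linarith)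
  obtain ⟨N₁, h1⟩ := h1 (1 / 2 + δ) (by linarith)
  obtain ⟨N₂, h2⟩ := h2 δ hδ
  refine ⟨N₀ + N₁ + N₂ + 3, fun N _ hN w hw hw1 hbad => ?_⟩
  have hN3 : 3 ≤ N := by omega
  have hlog : 0 < Real.log N := by
    have := med_log hN3
    linarith
  have hc : min c₀ (1 / 20) ≤ 1 / 20 := min_le_right _ _
  have hc' : min c₀ (1 / 20) ≤ c₀ := min_le_left _ _
  have hp : 0 < Real.log N ^ (1 / 2 - δ) := Real.rpow_pos_of_pos hlog _
  have key : w * Real.log N ^ (1 / 2 - δ) ≤ Real.log N ^ (-(1 / 2 + δ)) := by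
    calc w * Real.log N ^ (1 / 2 - δ) ≤ 1 / Real.log N * Real.log N ^ (1 / 2 - δ) :=
          mul_le_mul_of_nonneg_right hw1 hp.le
      _ = Real.log N ^ (-(1 / 2 + δ)) := by
          rw [one_div, ← Real.rpow_neg_one, ← Real.rpow_add hlog]
          congr 1
          ring
  by_cases hx : ∀ (q : ℕ) [NeZero q] (χ : DirichletCharacter ℂ q) (β : ℝ), ¬ XZ κ N χ β
  · exfalso
    have h3 := h0 N (by omega) hx
    rw [sT_rA] at h3
    have h4 := sT_anti (N := N) key
    exact hbad (by linarith)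
  · push Not at hx
    obtain ⟨q, hq, χ, β, hx⟩ := hx
    rcases chi_pm hx.rz.pq (Fact.out : N.Prime) (q_lt_of_XZ hx (by linarith) hN3) with h | h
    · refine ⟨q, hq, χ, β, hx, h, ?_⟩
      by_contra hcon
      push Not at hcon
      have h3 := h2 N (by omega) q χ β (hx.mono a2 hN3) h
      have h4 : w * Real.log N ^ (1 / 2 - δ) ≤ (1 - β) * Real.log N ^ (1 / 2 - δ) :=
        mul_le_mul_of_nonneg_right hcon hp.le
      have h5 := sT_anti (N := N) h4
      exact hbad (by linarith)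
    · exfalso
      have h3 := h1 N (by omega) q χ β (hx.mono a1 hN3) h
      rw [sT_rA] at h3
      have h4 := sT_anti (N := N) key
      exact hbad (by linarith)

/-- from the zeros of the odd characters to almost all levels -/
theorem aas_low : ∃ c : ℝ, 0 < c ∧ ∀ ω : ℝ → ℝ, Sc ω → ZO ω →
    ∃ C : ℝ, AlmostAll (Gd ω c C) := by
  obtain ⟨cU, hcU, hpu⟩ := pu
  obtain ⟨K, hK, hp3⟩ := p3
  obtain ⟨c, κ, hc, hκ, hκm, hκ2, h⟩ := aas_core (κm := min (cU / 2) (1 / K))
    (lt_min (by positivity) (by positivity))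
  have hκU : κ ≤ cU / 2 := hκm.trans (min_le_left _ _)
  have hκK : κ ≤ 1 / K := hκm.trans (min_le_right _ _)
  obtain ⟨N₁, h⟩ := h (1 / 2) (by norm_num)
  obtain ⟨c₀, hc₀, h0⟩ := p0
  refine ⟨c, hc, fun ω hω hz => ?_⟩
  obtain ⟨C, q₀, hz⟩ := hz
  obtain ⟨C₁, hC₁⟩ : ∃ C₁ : ℝ, C₁ = max C 2 := ⟨_, rfl⟩
  have hC1 : 2 ≤ C₁ := by rw [hC₁]; exact le_max_right _ _
  have hC2 : C ≤ C₁ := by rw [hC₁]; exact le_max_left _ _
  obtain ⟨N₂, h2⟩ := med_big (((q₀ : ℝ) + 1) / c₀)
  refine ⟨C₁, fun η hη => ?_⟩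
  obtain ⟨δ₃, X₃, hδ₃, hp3⟩ := hp3 (η / 2) (by positivity)
  obtain ⟨X₆, h6⟩ := pix_big p6 (η := η / 2) (by positivity)
  obtain ⟨X₄, h4⟩ := med_big (max 2 (4 / δ₃))
  obtain ⟨m, hm⟩ : ∃ m, m = max (max N₁ N₂) 3 := ⟨_, rfl⟩
  have hm1 : N₁ ≤ m := by rw [hm]; exact (le_max_left _ _).trans (le_max_left _ _)
  have hm2 : N₂ ≤ m := by rw [hm]; exact (le_max_right _ _).trans (le_max_left _ _)
  have hm3 : 3 ≤ m := by rw [hm]; exact le_max_right _ _
  refine ⟨max (max X₃ X₄) (max X₆ (m * m)), fun X hX => ?_⟩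
  have b3 : X₃ ≤ X := (le_max_left _ _).trans ((le_max_left _ _).trans hX)
  have b4 : X₄ ≤ X := (le_max_right _ _).trans ((le_max_left _ _).trans hX)
  have b6 : X₆ ≤ X := (le_max_left _ _).trans ((le_max_right _ _).trans hX)
  have bm : m * m ≤ X := (le_max_right _ _).trans ((le_max_right _ _).trans hX)
  have h4 := h4 X b4
  have h5 : 2 ≤ Real.log X := (le_max_left _ _).trans h4
  have h4' : 4 / δ₃ ≤ Real.log X := (le_max_right _ _).trans h4
  have hXm : 9 ≤ X := by nlinarith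
  have hX0 : (0 : ℝ) < X := by exact_mod_cast (by omega : 0 < X)
  obtain ⟨H, hH⟩ : ∃ H, H = Real.log X / 2 := ⟨_, rfl⟩
  have hlX : Real.log X = 2 * H := by rw [hH]; ring
  have hH0 : 1 ≤ H := by linarith
  -- the data of a bad prime
  have key : ∀ N : ℕ, N ≤ X → Real.sqrt X < N → ¬ Gd ω c C₁ N →
      ∃ (q : ℕ) (_ : NeZero q) (χ : DirichletCharacter ℂ q) (β : ℝ), RZ χ β ∧ q ≤ X ∧
        1 - cU / Real.log X < β ∧ χ (N : ZMod q) = 1 ∧ K * Real.log q ≤ Real.log X ∧
        (1 - β) * Real.log X ≤ δ₃ := by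
    intro N hNX hN hb
    unfold Gd at hb
    push Not at hb
    obtain ⟨hp, hb⟩ := hb
    haveI : Fact N.Prime := ⟨hp⟩
    have hmN : m ≤ N := by
      by_contra hcon
      push Not at hcon
      have : N * N < m * m := Nat.mul_self_lt_mul_self hcon
      have h7 : (N : ℝ) * N < X := by exact_mod_cast this.trans_le bm
      have h8 : (N : ℝ) < Real.sqrt X := by
        rw [Real.lt_sqrt (by positivity), sq]; exact h7
      linarith
    have hNpos : (0 : ℝ) < N := by exact_mod_cast (by omega : 0 < N)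
    have hN2 : H ≤ Real.log N := by
      have : Real.log (Real.sqrt X) ≤ Real.log N :=
        Real.log_le_log (Real.sqrt_pos.2 hX0) hN.le
      rw [Real.log_sqrt hX0.le] at this
      rw [hH]; exact this
    have hNX' : Real.log N ≤ Real.log X := Real.log_le_log hNpos (by exact_mod_cast hNX)
    obtain ⟨x, hx⟩ : ∃ x : ℝ, x = Real.log N := ⟨_, rfl⟩
    rw [← hx] at hN2 hNX' hb
    have hx1 : 1 ≤ x := by linarith
    have hx0 : 0 < x := by linarith
    obtain ⟨w, hw⟩ : ∃ w : ℝ, w = Real.exp (-(C₁ * ω x)) := ⟨_, rfl⟩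
    have hw0 : 0 < w := by rw [hw]; exact Real.exp_pos _
    -- `w x² ≤ 1`
    have hwx : x * x * w ≤ 1 := by
      have h1 := hω.absorb 0 1 hx1 (le_refl x)
      rw [zero_mul, neg_zero, Real.exp_zero] at h1
      have h2 : Real.exp (-(C₁ * ω x)) ≤ Real.exp (-((0 + ((1 : ℕ) + 1)) * ω x)) := by
        apply hω.anti _ hx1
        push_cast
        linarith
      rw [← hw] at h2
      have h3 : x * x * w ≤ x * x * Real.exp (-((0 + ((1 : ℕ) + 1)) * ω x)) :=
        mul_le_mul_of_nonneg_left h2 (by positivity)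
      have h4 : x * x ^ 1 * Real.exp (-((0 + ((1 : ℕ) + 1)) * ω x)) =
        x * x * Real.exp (-((0 + ((1 : ℕ) + 1)) * ω x)) := by ring
      linarith
    have hw1 : w ≤ 1 / x := by
      rw [le_div_iff₀ hx0]
      have : w * x * 1 ≤ w * x * x := mul_le_mul_of_nonneg_left hx1 (by positivity)
      have e : w * x * x = x * x * w := by ring
      linarith
    have e : (1 : ℝ) / 2 - 1 / 2 = 0 := by norm_num
    obtain ⟨q, hq, χ, β, hxz, h1, hwβ⟩ := h N (by omega) w hw0 (by rw [← hx]; exact hw1) (by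
      rw [e, Real.rpow_zero, mul_one, hw]
      exact not_le.2 hb)
    have hlt := q_lt_of_XZ hxz (by linarith) (by omega)
    have hqpos : (0 : ℝ) < q := by exact_mod_cast Nat.pos_of_ne_zero (NeZero.ne q)
    have hqN : Real.log q ≤ x := by
      rw [hx]
      exact Real.log_le_log hqpos (by exact_mod_cast hlt.le)
    have hlq : 1 ≤ Real.log q := c6_log hxz.rz.pq
    refine ⟨q, hq, χ, β, hxz.rz, by omega, ?_, ?_, ?_, ?_⟩
    · have h9 : κ / x ≤ cU / Real.log X := by
        rw [div_le_div_iff₀ hx0 (by linarith), hlX]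
        have h10 : κ * (2 * H) ≤ cU / 2 * (2 * H) :=
          mul_le_mul_of_nonneg_right hκU (by linarith)
        have h11 : cU * H ≤ cU * x := mul_le_mul_of_nonneg_left hN2 hcU.le
        linarith
      have := hxz.hβ
      rw [← hx] at this
      linarith
    · refine chi_even h1 fun ho => ?_
      have h10 : w ≤ 1 - β := by
        rcases Nat.lt_or_ge q q₀ with h4 | h4
        · have h5 := h0 q χ β hxz.rz
          have h6 : c₀ / ((q₀ : ℝ) + 1) ≤ c₀ / q := by
            apply div_le_div_of_nonneg_left hc₀.le hqpos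
            have : (q : ℝ) ≤ q₀ := by exact_mod_cast h4.le
            linarith
          have h7 := h2 N (by omega)
          rw [← hx] at h7
          have h8 : 1 / x ≤ c₀ / ((q₀ : ℝ) + 1) := by
            rw [div_le_iff₀ hc₀] at h7
            rw [div_le_div_iff₀ hx0 (by positivity)]
            linarith
          linarith
        · have h5 := hz q h4 χ β hxz.rz ho
          have h6 := hω.anti hC2 hlq
          have h7 : w ≤ Real.exp (-(C₁ * ω (Real.log q))) := by
            rw [hw]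
            apply Real.exp_le_exp.mpr
            have h8 := hω.mono _ _ hlq hqN
            have h9 := mul_le_mul_of_nonneg_left h8 (show 0 ≤ C₁ by linarith)
            linarith
          linarith
      linarith
    · have h11 : Real.log q ≤ κ * x := by
        have := Real.log_le_log hqpos hxz.hq
        rwa [Real.log_rpow hNpos, ← hx] at this
      calc K * Real.log q ≤ K * (κ * x) :=
            mul_le_mul_of_nonneg_left h11 (by linarith)
        _ ≤ K * (1 / K * x) :=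
            mul_le_mul_of_nonneg_left (mul_le_mul_of_nonneg_right hκK hx0.le) (by linarith)
        _ = x := by field_simp
        _ ≤ Real.log X := hNX'
    · have hβ0 : 0 < 1 - β := by have := hxz.rz.lt; linarith
      have h12 : (1 - β) * x * x ≤ 1 := by
        have h13 : x * x * (1 - β) ≤ x * x * w :=
          mul_le_mul_of_nonneg_left hwβ.le (by positivity)
        have e1 : (1 - β) * x * x = x * x * (1 - β) := by ring
        linarith
      have h13 : (1 - β) * H * H ≤ 1 := by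
        have h14 : (1 - β) * H ≤ (1 - β) * x := mul_le_mul_of_nonneg_left hN2 hβ0.le
        have h15 : (1 - β) * H * H ≤ (1 - β) * x * x :=
          mul_le_mul h14 hN2 (by linarith) (by positivity)
        linarith
      have h16 : 2 ≤ δ₃ * H := by
        rw [div_le_iff₀ hδ₃, hlX] at h4'
        linarith
      rw [hlX]
      have h17 : ((1 - β) * (2 * H)) * H ≤ δ₃ * H := by
        have e1 : ((1 - β) * (2 * H)) * H = 2 * ((1 - β) * H * H) := by ring
        rw [e1]
        linarith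
      exact le_of_mul_le_mul_right h17 (by linarith)
  have hs6 := h6 X b6
  by_cases hex : ∃ N : ℕ, N ≤ X ∧ Real.sqrt X < N ∧ ¬ Gd ω c C₁ N
  · obtain ⟨N', hN'X, hN', hb'⟩ := hex
    obtain ⟨q, hq, χ, β, hRZ, hqX, hβ, -, hKq, hδq⟩ := key N' hN'X hN' hb'
    have h20 := hp3 q χ β hRZ X b3 hKq hδq
    have h21 : cp (fun N => ¬ Gd ω c C₁ N) X ≤
        Real.sqrt X + cp (fun n => χ (n : ZMod q) ≠ -1) X := by
      apply cp_le_add (Real.sqrt_nonneg _)
      intro n hnp hnX hn hb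
      obtain ⟨q', hq', χ', β', hRZ', hqX', hβ', h1', -, -⟩ := key n hnX hn hb
      obtain ⟨-, heq, -⟩ := hpu X (by omega) q χ β q' χ' β' hqX hqX' hRZ hRZ' hβ hβ'
      rw [heq n, h1']
      norm_num
    linarith
  · push Not at hex
    have h21 : cp (fun N => ¬ Gd ω c C₁ N) X ≤ Real.sqrt X + cp (fun _ => False) X := by
      apply cp_le_add (Real.sqrt_nonneg _)
      intro n hnp hnX hn hb
      exact hb (hex n hnX hn)
    have h22 : cp (fun _ => False) X = 0 := by
      unfold cp; simp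
    have := pix_nonneg X
    nlinarith

end Pool.Agent.AAS
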