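import Pool.Agent.Lib_helper9.AAS.Low

/-!
# AAS (MP_cc4f83_nt): almost all prime levels, at every scale: from central values to zeros
-/

set_option autoImplicit false

namespace Pool.Agent.AAS

open Finset Filter Topology
open Pool.Agent.LK (PQ)
open Pool.Agent.LEV (S2 IsNew co Lh HE)
open Pool.Agent.T12
open Pool.Agent.MED

/-- about half of the central values at the level `N` exceed `exp(-C ω(log N))` -/
def Hf (ω : ℝ → ℝ) (ε C : ℝ) (N : ℕ) : Prop := ∀ h : N.Prime,
  |@sT N ⟨h⟩ (Real.exp (-(C * ω (Real.log N)))) - 1 / 2| ≤ ε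

variable {ω : ℝ → ℝ}

/-- without the zero free region: half, on a set of primes of relative upper density `1` -/
theorem aas_up (hω : Sc ω) (hz : ¬ ZO ω) : ∀ C ε : ℝ, 1 ≤ C → 0 < ε → UpperOne (Hf ω ε C) := by
  intro C ε hC hε η hη X₀
  obtain ⟨κ, hκ, hup⟩ := med_up ε hε
  obtain ⟨N₁, hup⟩ := hup (1 / 2) (by norm_num)
  obtain ⟨N₂, hlo⟩ := rA_half 1 (by norm_num) ε hε
  obtain ⟨N₀, hN₀⟩ : ∃ N₀ : ℕ, N₀ = N₁ + N₂ + 3 := ⟨_, rfl⟩
  obtain ⟨K, hK, hp3⟩ := p3
  obtain ⟨δ₃, X₃, hδ₃, hp3⟩ := hp3 (η / 2) (by positivity)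
  obtain ⟨X₆, h6⟩ := pix_big p6 (η := η / 2) (by positivity)
  obtain ⟨K', hK'⟩ : ∃ K', K' = max K (1 / κ) := ⟨_, rfl⟩
  have hKK : K ≤ K' := by rw [hK']; exact le_max_left _ _
  have hKκ : 1 / κ ≤ K' := by rw [hK']; exact le_max_right _ _
  have hK1 : 1 ≤ K' := hK.trans hKK
  obtain ⟨D, hD, hmul⟩ := hω.mul (3 * K')
  obtain ⟨q₁, h1⟩ := med_big (max (3 * K') (max (6 * K' / κ) (3 * K' / δ₃)))
  unfold ZO at hz
  push Not at hz
  obtain ⟨q, hqn, hq, χ, β, hRZ, hodd, hw⟩ := hz (C * D + 2)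
    (max (max q₁ (N₀ * N₀ + 9)) (max X₀ (max X₃ X₆)))
  have c1 : q₁ ≤ q := (le_max_left _ _).trans ((le_max_left _ _).trans hq)
  have c2 : N₀ * N₀ + 9 ≤ q := (le_max_right _ _).trans ((le_max_left _ _).trans hq)
  have c3 : X₀ ≤ q := (le_max_left _ _).trans ((le_max_right _ _).trans hq)
  have c4 : X₃ ≤ q := (le_max_left _ _).trans ((le_max_right _ _).trans
    ((le_max_right _ _).trans hq))
  have c5 : X₆ ≤ q := (le_max_right _ _).trans ((le_max_right _ _).trans
    ((le_max_right _ _).trans hq))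
  have h2 := h1 q c1
  obtain ⟨L, hL⟩ : ∃ L, L = Real.log q := ⟨_, rfl⟩
  rw [← hL] at h2 hw
  have g1 : 3 * K' ≤ L := (le_max_left _ _).trans h2
  have g2 : 6 * K' / κ ≤ L := (le_max_left _ _).trans ((le_max_right _ _).trans h2)
  have g3 : 3 * K' / δ₃ ≤ L := (le_max_right _ _).trans ((le_max_right _ _).trans h2)
  have hL1 : 1 ≤ L := by linarith
  have hL0 : 0 < L := by linarith
  have hq9 : 9 ≤ q := by omega
  have hq9' : (9 : ℝ) ≤ q := by exact_mod_cast hq9
  have hq0 : (0 : ℝ) < q := by linarith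
  have hw0 : 0 < 1 - β := by linarith [hRZ.lt]
  have hCD : 0 ≤ C * D := by positivity
  -- `(1 - β) L² ≤ 1`
  have hsq : (1 - β) * L * L ≤ 1 := by
    have k1 := hω.absorb 0 1 hL1 (le_refl L)
    rw [zero_mul, neg_zero, Real.exp_zero] at k1
    have k2 : Real.exp (-((C * D + 2) * ω L)) ≤ Real.exp (-((0 + ((1 : ℕ) + 1)) * ω L)) := by
      apply hω.anti _ hL1
      push_cast
      linarith
    have k3 : L * L * (1 - β) ≤ L * L * Real.exp (-((0 + ((1 : ℕ) + 1)) * ω L)) :=
      mul_le_mul_of_nonneg_left (by linarith) (by positivity)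
    have k4 : L * L ^ 1 * Real.exp (-((0 + ((1 : ℕ) + 1)) * ω L)) =
      L * L * Real.exp (-((0 + ((1 : ℕ) + 1)) * ω L)) := by ring
    have k5 : (1 - β) * L * L = L * L * (1 - β) := by ring
    linarith
  have hκL : (1 - β) * (3 * K' * L) ≤ κ / 2 := by
    rw [div_le_iff₀ hκ] at g2
    have k1 : ((1 - β) * (3 * K' * L)) * L ≤ κ / 2 * L := by
      have e1 : ((1 - β) * (3 * K' * L)) * L = 3 * K' * ((1 - β) * L * L) := by ring
      rw [e1]
      have k2 := mul_le_mul_of_nonneg_left hsq (show 0 ≤ 3 * K' by linarith)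
      linarith
    exact le_of_mul_le_mul_right k1 hL0
  have hδL : (1 - β) * (3 * K' * L) ≤ δ₃ := by
    rw [div_le_iff₀ hδ₃] at g3
    have k1 : ((1 - β) * (3 * K' * L)) * L ≤ δ₃ * L := by
      have e1 : ((1 - β) * (3 * K' * L)) * L = 3 * K' * ((1 - β) * L * L) := by ring
      rw [e1]
      have k2 := mul_le_mul_of_nonneg_left hsq (show 0 ≤ 3 * K' by linarith)
      linarith
    exact le_of_mul_le_mul_right k1 hL0
  obtain ⟨X, hX⟩ : ∃ X : ℕ, X = ⌈(q : ℝ) ^ (2 * K')⌉₊ := ⟨_, rfl⟩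
  have hX1 : (q : ℝ) ^ (2 * K') ≤ X := by rw [hX]; exact Nat.le_ceil _
  have hX2 : (X : ℝ) < (q : ℝ) ^ (2 * K') + 1 := by
    rw [hX]; exact Nat.ceil_lt_add_one (by positivity)
  have hqX' : (q : ℝ) ≤ (q : ℝ) ^ (2 * K') := by
    calc (q : ℝ) = (q : ℝ) ^ (1 : ℝ) := (Real.rpow_one _).symm
      _ ≤ _ := Real.rpow_le_rpow_of_exponent_le (by linarith) (by linarith)
  have hqX : q ≤ X := by exact_mod_cast hqX'.trans hX1
  have hX0 : (0 : ℝ) < X := by linarith
  have hlX1 : 2 * K' * L ≤ Real.log X := by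
    have := Real.log_le_log (by positivity) hX1
    rwa [Real.log_rpow hq0, ← hL] at this
  have hlX2 : Real.log X ≤ 3 * K' * L := by
    have e1 : (q : ℝ) ^ (3 * K') = (q : ℝ) ^ K' * (q : ℝ) ^ (2 * K') := by
      rw [← Real.rpow_add hq0]; congr 1; ring
    have e2 : (2 : ℝ) ≤ (q : ℝ) ^ K' := by
      calc (2 : ℝ) ≤ (q : ℝ) ^ (1 : ℝ) := by rw [Real.rpow_one]; linarith
        _ ≤ _ := Real.rpow_le_rpow_of_exponent_le (by linarith) hK1
    have e3 : (X : ℝ) ≤ (q : ℝ) ^ (3 * K') := by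
      rw [e1]
      nlinarith
    have := Real.log_le_log hX0 e3
    rwa [Real.log_rpow hq0, ← hL] at this
  refine ⟨X, by omega, ?_⟩
  have h20 := hp3 q χ β hRZ X (by omega)
    (by rw [← hL]; nlinarith) ((mul_le_mul_of_nonneg_left hlX2 hw0.le).trans hδL)
  have hs6 := h6 X (by omega)
  have h21 : cp (fun N => ¬ Hf ω ε C N) X ≤
      Real.sqrt X + cp (fun n => χ (n : ZMod q) ≠ -1) X := by
    apply cp_le_add (Real.sqrt_nonneg _)
    intro N hp hNX hN hb hcon
    apply hb
    intro hp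
    haveI : Fact N.Prime := ⟨hp⟩
    have hN0 : N₀ ≤ N := by
      by_contra hcc
      push Not at hcc
      have : N * N < N₀ * N₀ := Nat.mul_self_lt_mul_self hcc
      have h7 : (N : ℝ) * N < X := by exact_mod_cast (by omega : N * N < X)
      have h8 : (N : ℝ) < Real.sqrt X := by
        rw [Real.lt_sqrt (by positivity), sq]; exact h7
      linarith
    have hNpos : (0 : ℝ) < N := by exact_mod_cast hp.pos
    have hqs : (q : ℝ) ^ K' ≤ Real.sqrt X := by
      rw [Real.le_sqrt (by positivity) hX0.le, ← Real.rpow_natCast, ← Real.rpow_mul hq0.le]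
      have : K' * ((2 : ℕ) : ℝ) = 2 * K' := by push_cast; ring
      rw [this]; exact hX1
    have hqN : (q : ℝ) ≤ (N : ℝ) ^ κ := by
      have e1 : ((q : ℝ) ^ (1 / κ)) ^ κ = q := by
        rw [← Real.rpow_mul hq0.le]
        have : 1 / κ * κ = 1 := by field_simp
        rw [this, Real.rpow_one]
      calc (q : ℝ) = ((q : ℝ) ^ (1 / κ)) ^ κ := e1.symm
        _ ≤ ((q : ℝ) ^ K') ^ κ := Real.rpow_le_rpow (by positivity)
            (Real.rpow_le_rpow_of_exponent_le (by linarith) hKκ) hκ.le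
        _ ≤ (N : ℝ) ^ κ := Real.rpow_le_rpow (by positivity) (hqs.trans hN.le) hκ.le
    have hlN1 : K' * L ≤ Real.log N := by
      have := Real.log_le_log (by positivity) (hqs.trans hN.le)
      rwa [Real.log_rpow hq0, ← hL] at this
    have hlN2 : Real.log N ≤ 3 * K' * L :=
      (Real.log_le_log hNpos (by exact_mod_cast hNX)).trans hlX2
    obtain ⟨y, hy⟩ : ∃ y : ℝ, y = Real.log N := ⟨_, rfl⟩
    rw [← hy] at hlN1 hlN2
    have hLy : L ≤ y := by nlinarith
    have hy1 : 1 ≤ y := by linarith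
    have hy0 : 0 < y := by linarith
    have hxz : XZ κ N χ β := by
      refine ⟨hRZ, hqN, ?_⟩
      have : 1 - β < κ / Real.log N := by
        rw [← hy, lt_div_iff₀ hy0]
        have := (mul_le_mul_of_nonneg_left hlN2 hw0.le).trans hκL
        linarith
      linarith
    have hu := hup N (by omega) q χ β hxz (chi_odd hcon hodd)
    have hl := hlo N (by omega)
    rw [sT_rA] at hl
    have e : (1 : ℝ) / 2 + 1 / 2 = 1 := by norm_num
    rw [e, Real.rpow_one, ← hy] at hu
    rw [← hy] at hl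
    have hyω := hmul L y hL1 hLy hlN2
    -- the threshold is above the one of `med_up`
    have t1 : (1 - β) * y ≤ Real.exp (-(C * ω y)) := by
      have k1 := hω.absorb (C * D) 1 hL1 g1
      have k2 : ((1 : ℕ) : ℝ) + 1 = 2 := by norm_num
      rw [k2, pow_one] at k1
      have k3 : (1 - β) * y ≤ Real.exp (-((C * D + 2) * ω L)) * (3 * K' * L) :=
        mul_le_mul hw.le hlN2 hy0.le (Real.exp_pos _).le
      have k4 : Real.exp (-(C * D * ω L)) ≤ Real.exp (-(C * ω y)) := by
        apply Real.exp_le_exp.mpr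
        have k5 := mul_le_mul_of_nonneg_left hyω (show 0 ≤ C by linarith)
        have k6 : C * (D * ω L) = C * D * ω L := by ring
        linarith
      have k7 : Real.exp (-((C * D + 2) * ω L)) * (3 * K' * L) =
        3 * K' * L * Real.exp (-((C * D + 2) * ω L)) := by ring
      linarith
    have t2 : Real.exp (-(C * ω y)) ≤ y ^ (-(1 : ℝ)) := by
      have k1 := hω.anti hC hy1
      rw [one_mul] at k1
      have k2 := hω.exp_le hy1
      rw [Real.rpow_neg_one, ← one_div]
      linarith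
    have s1 := sT_anti (N := N) t1
    have s2 := sT_anti (N := N) t2
    rw [← hy, abs_le]
    constructor <;> linarith
  linarith

/-- from a positive proportion of the levels to the zero free region -/
theorem aas_pos (hω : Sc ω) {c : ℝ} (hc : 0 < c) {C η : ℝ} (hη : 0 < η) {X₀ : ℕ}
    (h : ∀ X : ℕ, X₀ ≤ X → η * pix X ≤ cp (Gd ω c C) X) : ZO ω := by
  by_contra hz
  obtain ⟨X₆, h6⟩ := pix_big p6 (η := η / 4) (by positivity)
  obtain ⟨X, hX, h1⟩ := aas_up hω hz (max C 1) (c / 2) (le_max_right _ _) (by positivity)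
    (η / 2) (by positivity) (X₀ + X₆ + 9)
  have h2 := h X (by omega)
  have h3 := pix_pos (show 2 ≤ X by omega)
  have h4 := h6 X (by omega)
  have h5 : (2 : ℝ) ≤ Real.sqrt X := by
    rw [Real.le_sqrt (by norm_num) (by positivity)]
    have : (9 : ℝ) ≤ X := by exact_mod_cast (by omega : 9 ≤ X)
    linarith
  have h7 : cp (Gd ω c C) X ≤ 2 + cp (fun N => ¬ Hf ω (c / 2) (max C 1) N) X := by
    apply cp_le_add (by norm_num)
    intro N hp hNX hN hg hh
    have hN3 : 3 ≤ N := by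
      have : 2 < N := by exact_mod_cast hN
      omega
    have hlog := med_log hN3
    haveI : Fact N.Prime := ⟨hp⟩
    have k1 := hg hp
    have k2 := hh hp
    have k3 := hω.anti (le_max_left C 1) hlog.le
    have k4 := sT_anti (N := N) k3
    rw [abs_le] at k2
    linarith [k2.2]
  have h8 : 0 < η / 4 * pix X := by positivity
  linarith

end Pool.Agent.AAS
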